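import Pool.Agent.N623.CS.Stm

/-!
# CS/CLOSE: closeness does not change under composition on the right (helper490)
-/

set_option autoImplicit false

namespace Pool.Agent.N490.CS.Close

open Pool.Agent.N623.CS

/-- first occurrence -/
def New (B : ℕ → ℕ) (n : ℕ) : Prop := ∀ j, j < n → B j ≠ B n

theorem cnt_succ_new {B : ℕ → ℕ} {n : ℕ} (h : New B n) : cnt B (n + 1) = cnt B n + 1 := by
  unfold cnt
  unfold New at h
  rw [Finset.range_add_one, Finset.filter_insert, if_pos h, Finset.card_insert_of_notMem]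
  intro h'
  exact absurd (Finset.mem_range.1 (Finset.mem_filter.1 h').1) (lt_irrefl n)

theorem cnt_succ_old {B : ℕ → ℕ} {n : ℕ} (h : ¬ New B n) : cnt B (n + 1) = cnt B n := by
  unfold cnt
  unfold New at h
  rw [Finset.range_add_one, Finset.filter_insert, if_neg h]

theorem cnt_zero (B : ℕ → ℕ) : cnt B 0 = 0 := by
  unfold cnt
  simp

theorem new_eq {B : ℕ → ℕ} (hB : IsRS B) {n : ℕ} (h1 : ∀ m, m < n → B m < cnt B n)
    (h2 : ∀ v, v < cnt B n → ∃ m, m < n ∧ B m = v) (h : New B n) : B n = cnt B n := by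
  rcases lt_trichotomy (B n) (cnt B n) with h3 | h3 | h3
  · obtain ⟨m, hm, hm'⟩ := h2 _ h3
    exact absurd hm' (h m hm)
  · exact h3
  · obtain ⟨i, hi, hi'⟩ := hB.1 n _ h3
    have := h1 i hi
    omega

theorem rigid {B : ℕ → ℕ} (hB : IsRS B) (n : ℕ) : (∀ m, m < n → B m < cnt B n) ∧
    ∀ v, v < cnt B n → ∃ m, m < n ∧ B m = v := by
  induction n with
  | zero =>
    refine ⟨fun m hm => absurd hm (Nat.not_lt_zero m), fun v hv => ?_⟩
    rw [cnt_zero] at hv
    exact absurd hv (Nat.not_lt_zero v)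
  | succ n ih =>
    obtain ⟨h1, h2⟩ := ih
    by_cases h : New B n
    · have h3 := new_eq hB h1 h2 h
      rw [cnt_succ_new h]
      refine ⟨fun m hm => ?_, fun v hv => ?_⟩
      · rcases Nat.lt_succ_iff_lt_or_eq.1 hm with h4 | h4
        · have := h1 m h4
          omega
        · rw [h4, h3]
          omega
      · rcases Nat.lt_succ_iff_lt_or_eq.1 hv with h4 | h4
        · obtain ⟨m, hm, hm'⟩ := h2 v h4
          exact ⟨m, by omega, hm'⟩
        · exact ⟨n, by omega, by rw [h3, h4]⟩
    · rw [cnt_succ_old h]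
      have h3 : ∃ j, j < n ∧ B j = B n := by
        unfold New at h
        push Not at h
        exact h
      obtain ⟨j, hj, hj'⟩ := h3
      refine ⟨fun m hm => ?_, fun v hv => ?_⟩
      · rcases Nat.lt_succ_iff_lt_or_eq.1 hm with h4 | h4
        · exact h1 m h4
        · rw [h4, ← hj']
          exact h1 j hj
      · obtain ⟨m, hm, hm'⟩ := h2 v hv
        exact ⟨m, by omega, hm'⟩

theorem cnt_comp (f : ℕ → ℕ) {B : ℕ → ℕ} (hB : IsRS B) (n : ℕ) :
    cnt (fun i => f (B i)) n = cnt f (cnt B n) := by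
  induction n with
  | zero => rw [cnt_zero, cnt_zero, cnt_zero]
  | succ n ih =>
    obtain ⟨h1, h2⟩ := rigid hB n
    by_cases h : New B n
    · have h3 := new_eq hB h1 h2 h
      rw [cnt_succ_new h]
      have h4 : New (fun i => f (B i)) n ↔ New f (cnt B n) := by
        constructor
        · intro h5 u hu
          obtain ⟨m, hm, hm'⟩ := h2 u hu
          have h6 := h5 m hm
          simp only at h6
          rw [hm', h3] at h6
          exact h6
        · intro h5 j hj
          simp only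
          rw [h3]
          exact h5 _ (h1 j hj)
      by_cases h5 : New f (cnt B n)
      · rw [cnt_succ_new h5, cnt_succ_new (h4.2 h5), ih]
      · rw [cnt_succ_old h5, cnt_succ_old (fun h6 => h5 (h4.1 h6)), ih]
    · rw [cnt_succ_old h, ← ih]
      apply cnt_succ_old
      intro h5
      apply h
      intro j hj hjn
      exact h5 j hj (by simp only [hjn])

theorem cnt_onto {B : ℕ → ℕ} (hB : IsRS B) (N : ℕ) : ∃ n, cnt B n = N := by
  classical
  have hex : ∃ n, B n = N := hB.2 N
  refine ⟨Nat.find hex, ?_⟩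
  have h1 := Nat.find_spec hex
  have h2 : New B (Nat.find hex) := by
    intro j hj h
    exact Nat.find_min hex hj (h.trans h1)
  obtain ⟨h3, h4⟩ := rigid hB (Nat.find hex)
  rw [← new_eq hB h3 h4 h2, h1]

/-- CS/CLOSE -/
theorem t_close : S_CLOSE := by
  intro f g B
  have e : ∀ (f : RS) (n : ℕ), cnt ((f * B : RS) : ℕ → ℕ) n = cnt f (cnt B n) :=
    fun f n => cnt_comp f.1 B.2 n
  constructor
  · rintro ⟨N, h⟩
    refine ⟨N, fun k => ?_⟩
    obtain ⟨n, hn⟩ := cnt_onto B.2 k
    have h1 := h n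
    rw [e, e, hn] at h1
    exact h1
  · rintro ⟨N, h⟩
    refine ⟨N, fun n => ?_⟩
    rw [e, e]
    exact h _

end Pool.Agent.N490.CS.Close
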